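import Pool.Agent.P.MP_8be476_pr.Walk
import Pool.Agent.P.MP_8be476_pr.Exist

set_option autoImplicit false

open MeasureTheory Filter
open Pool.Agent.P.MP_8be476_pr

namespace Pool.Agent.Results.MP_8be476_pr.SpeedUp

/-- For the offspring law `p_2 = p_{10^6} = 1/2` and conductances `1000` on edges joining two
vertices of index `10^6`, `1` on the other edges: `v_SRW < 2/3`, the model exists, and in every
realisation almost surely `|X_n| ≥ 2n/3` for all large `n`. -/
theorem result :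
    ∫ k, ((k : ℝ) - 1) / ((k : ℝ) + 1) ∂law < 2 / 3 ∧
    (∃ (Ω : Type) (_ : MeasurableSpace Ω) (P : Measure Ω) (ι : Ω → List ℕ → ℕ)
      (X : ℕ → Ω → List ℕ), IsWalk law cond P ι X) ∧
    ∀ (Ω : Type) [MeasurableSpace Ω] (P : Measure Ω) (ι : Ω → List ℕ → ℕ) (X : ℕ → Ω → List ℕ),
      IsWalk law cond P ι X →
        ∀ᵐ ω ∂P, ∀ᶠ n : ℕ in atTop, (2 / 3 : ℝ) * n ≤ (X n ω).length :=
  ⟨vSRW_lt, exists_walk, fun _ _ _ _ _ h => h.speed⟩

end Pool.Agent.Results.MP_8be476_pr.SpeedUp
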